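import Mathlib

/-!
# The theory of the integers with the square-free predicates is not MS-measurable

Let `M` be a model of `T_Sqf` with a function `h` as in the definition of MS-measurability.  The
map `M → M` which sends `2 y` and `2 y + 1` to `y` is a definable surjection all of whose fibres
have two elements.  The Fubini condition for this map and the additivity of `h` (which is the Fubini
condition for a map to a finite set) give `h(M) = (d, μ) = (d, 2 μ)` with `μ > 0`.
-/

set_option autoImplicit false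

universe u

namespace Pool.Agent.Results.MP_c6a6a6_lc.NotMeasurable

open FirstOrder FirstOrder.Language

/-! ### The structure on the integers -/

/-- The function symbols `1`, `-`, `+`. -/
inductive Fn : ℕ → Type
  | one : Fn 0
  | neg : Fn 1
  | add : Fn 2

/-- The relation symbols `P_m`, `m ≥ 1`, and `U_{p,l}`, `p` prime, `l ∈ ℤ`. -/
inductive Rl : ℕ → Type
  | P (m : ℕ) (hm : 1 ≤ m) : Rl 1
  | U (p : ℕ) (hp : p.Prime) (l : ℤ) : Rl 1

/-- The language `{+, -, 1, (P_m), (U_{p,l})}`. -/
abbrev Lsqf : FirstOrder.Language.{0, 0} := ⟨Fn, Rl⟩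

/-- The integers as a structure; `emultiplicity (p : ℤ) a` is the `p`-adic valuation of `a`, equal
to `⊤` for `a = 0`. As valuations are nonnegative, `v_p(a) ≥ l` means `v_p(a) ≥ max(l, 0)`. -/
instance strZ : Lsqf.Structure ℤ where
  funMap := fun {_} f v => match f with
    | Fn.one => 1
    | Fn.neg => - v 0
    | Fn.add => v 0 + v 1
  RelMap := fun {_} r v => match r with
    | Rl.P m _ => ∀ p : ℕ, p.Prime → emultiplicity (p : ℤ) (v 0) < 2 + emultiplicity (p : ℤ) m
    | Rl.U p _ l => (l.toNat : ℕ∞) ≤ emultiplicity (p : ℤ) (v 0)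

/-- The complete theory of this structure. -/
def Tsqf : Lsqf.Theory := Lsqf.completeTheory ℤ

/-! ### MS-measurability -/

section ms

variable (L : FirstOrder.Language.{0, 0}) (M : Type u) [L.Structure M]

/-- `X ⊆ M ^ n` is definable with parameters. -/
def Def {n : ℕ} (X : Set (Fin n → M)) : Prop := (Set.univ : Set M).Definable L X

/-- `f` is a definable surjection from the definable set `X` onto the definable set `Y`. -/
def DefSurj {n m : ℕ} (X : Set (Fin n → M)) (Y : Set (Fin m → M))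
    (f : (Fin n → M) → (Fin m → M)) : Prop :=
  Def L M X ∧ Def L M Y ∧ f '' X = Y ∧
    (Set.univ : Set M).Definable L {w : Fin n ⊕ Fin m → M |
      (fun i => w (Sum.inl i)) ∈ X ∧ f (fun i => w (Sum.inl i)) = fun j => w (Sum.inr j)}

/-- The values on definable sets are in `(ℕ × ℝ_{> 0}) ∪ {(0, 0)}`. -/
def Values (h : (n : ℕ) → Set (Fin n → M) → ℕ × ℝ) : Prop :=
  ∀ (n : ℕ), 1 ≤ n → ∀ X : Set (Fin n → M), Def L M X → 0 < (h n X).2 ∨ h n X = (0, 0)

/-- Condition 1. -/
def CondDef (h : (n : ℕ) → Set (Fin n → M) → ℕ × ℝ) : Prop :=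
  ∀ (n k : ℕ), 1 ≤ n → ∀ φ : L.Formula (Fin n ⊕ Fin k),
    (Set.range fun b : Fin k → M => h n {a | φ.Realize (Sum.elim a b)}).Finite ∧
    ∀ v ∈ Set.range fun b : Fin k → M => h n {a | φ.Realize (Sum.elim a b)},
      (∅ : Set M).Definable L {b : Fin k → M | h n {a | φ.Realize (Sum.elim a b)} = v}

/-- Condition 2. -/
def CondFin (h : (n : ℕ) → Set (Fin n → M) → ℕ × ℝ) : Prop :=
  ∀ (n : ℕ), 1 ≤ n → ∀ X : Set (Fin n → M), X.Finite → h n X = (0, (X.ncard : ℝ))

open Classical in
/-- Condition 3 (Fubini). The parts of the partition of `Y` are the `Z i`, the value `(d_i, μ_i)` is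
`w i`, and `(e_i, ν_i)` is `h m (Z i)`. -/
def CondFubini (h : (n : ℕ) → Set (Fin n → M) → ℕ × ℝ) : Prop :=
  ∀ (n m : ℕ), 1 ≤ n → 1 ≤ m → ∀ (X : Set (Fin n → M)) (Y : Set (Fin m → M))
    (f : (Fin n → M) → (Fin m → M)), DefSurj L M X Y f →
    ∃ (r : ℕ) (Z : Fin r → Set (Fin m → M)) (w : Fin r → ℕ × ℝ),
      (∀ i, (Z i).Nonempty) ∧ (∀ i j, i ≠ j → Disjoint (Z i) (Z j)) ∧ (⋃ i, Z i) = Y ∧
      (∀ i, Def L M (Z i)) ∧
      (∀ i, ∀ y ∈ Z i, h n {x ∈ X | f x = y} = w i) ∧
      ∃ c : ℕ, c = Finset.univ.sup (fun i => (w i).1 + (h m (Z i)).1) ∧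
        h n X = (c, ∑ i ∈ Finset.univ.filter (fun i => (w i).1 + (h m (Z i)).1 = c),
          (w i).2 * (h m (Z i)).2)

/-- The structure `M` is MS-measurable. -/
def MSMeasurable : Prop :=
  ∃ h : (n : ℕ) → Set (Fin n → M) → ℕ × ℝ,
    Values L M h ∧ CondDef L M h ∧ CondFin M h ∧ CondFubini L M h

/-- The complete theory `T` is MS-measurable: it has an MS-measurable model. -/
def MSMeasurableTheory (T : L.Theory) : Prop :=
  ∃ (M : Type u) (_ : Nonempty M) (_ : L.Structure M), M ⊨ T ∧ MSMeasurable L M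

end ms

/-! ### Additivity -/

section additivity

variable {L : FirstOrder.Language.{0, 0}} {M : Type u} [L.Structure M]
  {h : (n : ℕ) → Set (Fin n → M) → ℕ × ℝ}

theorem def_singleton (t : M) : Def L M {x : Fin 1 → M | x 0 = t} := by
  refine ⟨Term.equal (Term.var 0) ((L.con (⟨t, Set.mem_univ t⟩ : (Set.univ : Set M))).term), ?_⟩
  ext x
  simp

open Classical in
/-- additivity for finite partitions of definable sets of elements -/
theorem additive (h2 : CondFin M h) (h3 : CondFubini L M h) [Infinite M] (X : Set (Fin 1 → M))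
    (hX : Def L M X) {r : ℕ} (Z : Fin r → Set (Fin 1 → M)) (hne : ∀ i, (Z i).Nonempty)
    (hdis : ∀ i j, i ≠ j → Disjoint (Z i) (Z j)) (hcov : (⋃ i, Z i) = X)
    (hdef : ∀ i, Def L M (Z i)) :
    h 1 X = (Finset.univ.sup (fun i => (h 1 (Z i)).1),
      ∑ i ∈ Finset.univ.filter (fun i => (h 1 (Z i)).1 = Finset.univ.sup
        (fun i => (h 1 (Z i)).1)), (h 1 (Z i)).2) := by
  classical
  let t : Fin r ↪ M := Fin.valEmbedding.trans (Infinite.natEmbedding M)
  -- the map
  let f : (Fin 1 → M) → (Fin 1 → M) := fun x => if hx : ∃ i, x ∈ Z i then fun _ => t hx.choose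
    else x
  have hf : ∀ i, ∀ x ∈ Z i, f x = fun _ => t i := by
    intro i x hx
    have hex : ∃ i, x ∈ Z i := ⟨i, hx⟩
    have h1 : hex.choose = i := by
      by_contra hcon
      exact Set.disjoint_left.1 (hdis _ _ hcon) hex.choose_spec hx
    simp only [f, dif_pos hex, h1]
  let Y : Set (Fin 1 → M) := ⋃ i, {y | y 0 = t i}
  have hY : Def L M Y := Set.definable_iUnion_of_finite fun i => def_singleton (t i)
  have hYmem : ∀ y, y ∈ Y ↔ ∃ i, y = fun _ => t i := by
    intro y
    simp only [Y, Set.mem_iUnion, Set.mem_ofPred_eq]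
    refine exists_congr fun i => ⟨fun hy => ?_, fun hy => by rw [hy]⟩
    funext j
    rw [Subsingleton.elim j 0, hy]
  have himg : f '' X = Y := by
    ext y
    rw [hYmem, Set.mem_image]
    constructor
    · rintro ⟨x, hx, rfl⟩
      rw [← hcov] at hx
      obtain ⟨i, hi⟩ := Set.mem_iUnion.1 hx
      exact ⟨i, hf i x hi⟩
    · rintro ⟨i, rfl⟩
      obtain ⟨x, hx⟩ := hne i
      refine ⟨x, ?_, hf i x hx⟩
      rw [← hcov]
      exact Set.mem_iUnion.2 ⟨i, hx⟩
  have hgraph : (Set.univ : Set M).Definable L {w : Fin 1 ⊕ Fin 1 → M |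
      (fun i => w (Sum.inl i)) ∈ X ∧ f (fun i => w (Sum.inl i)) = fun j => w (Sum.inr j)} := by
    have e : {w : Fin 1 ⊕ Fin 1 → M |
        (fun i => w (Sum.inl i)) ∈ X ∧ f (fun i => w (Sum.inl i)) = fun j => w (Sum.inr j)} =
        ⋃ i, ({w : Fin 1 ⊕ Fin 1 → M | (fun i => w (Sum.inl i)) ∈ Z i} ∩
          {w : Fin 1 ⊕ Fin 1 → M | (fun j => w (Sum.inr j)) ∈ {y : Fin 1 → M | y 0 = t i}}) := by
      ext w
      simp only [Set.mem_ofPred_eq, Set.mem_iUnion, Set.mem_inter_iff]
      constructor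
      · rintro ⟨hx, hw⟩
        rw [← hcov] at hx
        obtain ⟨i, hi⟩ := Set.mem_iUnion.1 hx
        refine ⟨i, hi, ?_⟩
        rw [hf i _ hi] at hw
        exact (congrFun hw 0).symm
      · rintro ⟨i, hi, hw⟩
        refine ⟨?_, ?_⟩
        · rw [← hcov]
          exact Set.mem_iUnion.2 ⟨i, hi⟩
        · rw [hf i _ hi]
          funext j
          rw [Subsingleton.elim j 0, hw]
    rw [e]
    refine Set.definable_iUnion_of_finite fun i => ?_
    exact ((hdef i).preimage_comp (fun j : Fin 1 => (Sum.inl j : Fin 1 ⊕ Fin 1))).inter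
      ((def_singleton (t i)).preimage_comp (fun j : Fin 1 => (Sum.inr j : Fin 1 ⊕ Fin 1)))
  obtain ⟨s, W, w, hWne, hWdis, hWcov, -, hWw, c, hc, hXc⟩ :=
    h3 1 1 le_rfl le_rfl X Y f ⟨hX, hY, himg, hgraph⟩
  -- the fibres
  have hfib : ∀ i, {x ∈ X | f x = fun _ => t i} = Z i := by
    intro i
    ext x
    constructor
    · rintro ⟨hx, hfx⟩
      rw [← hcov] at hx
      obtain ⟨j, hj⟩ := Set.mem_iUnion.1 hx
      rw [hf j x hj] at hfx
      have h1 : j = i := t.injective (congrFun hfx 0)
      rwa [← h1]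
    · intro hx
      refine ⟨?_, hf i x hx⟩
      rw [← hcov]
      exact Set.mem_iUnion.2 ⟨i, hx⟩
  -- the part of the index `i`
  have hj : ∀ i : Fin r, ∃ j : Fin s, (fun _ => t i) ∈ W j := by
    intro i
    have h1 : (fun _ => t i : Fin 1 → M) ∈ Y := (hYmem _).2 ⟨i, rfl⟩
    rw [← hWcov] at h1
    exact Set.mem_iUnion.1 h1
  choose J hJ using hj
  have hJw : ∀ i, h 1 (Z i) = w (J i) := by
    intro i
    rw [← hfib i]
    exact hWw (J i) _ (hJ i)
  have hWJ : ∀ (j : Fin s) (y : Fin 1 → M), y ∈ W j ↔ ∃ i, J i = j ∧ y = fun _ => t i := by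
    intro j y
    constructor
    · intro hy
      have h1 : y ∈ Y := by
        rw [← hWcov]
        exact Set.mem_iUnion.2 ⟨j, hy⟩
      obtain ⟨i, rfl⟩ := (hYmem y).1 h1
      refine ⟨i, ?_, rfl⟩
      by_contra hcon
      exact Set.disjoint_left.1 (hWdis _ _ hcon) (hJ i) hy
    · rintro ⟨i, rfl, rfl⟩
      exact hJ i
  have hJsurj : ∀ j, ∃ i, J i = j := by
    intro j
    obtain ⟨y, hy⟩ := hWne j
    obtain ⟨i, hi, -⟩ := (hWJ j y).1 hy
    exact ⟨i, hi⟩
  have hWcard : ∀ j, h 1 (W j) = (0, ((Finset.univ.filter fun i => J i = j).card : ℝ)) := by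
    intro j
    have e : W j = ((Finset.univ.filter fun i => J i = j).image
        (fun i => (fun _ => t i : Fin 1 → M)) : Finset (Fin 1 → M)) := by
      ext y
      rw [hWJ]
      simp only [Finset.coe_image, Finset.coe_filter, Finset.mem_univ, true_and, Set.mem_image,
        Set.mem_ofPred_eq]
      exact exists_congr fun i => and_congr_right fun _ => eq_comm
    rw [h2 1 le_rfl (W j) (by rw [e]; exact Finset.finite_toSet _), e, Set.ncard_coe_finset,
      Finset.card_image_of_injective]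
    intro a b hab
    exact t.injective (congrFun hab 0)
  -- the maximum
  have hsup : c = Finset.univ.sup (fun i => (h 1 (Z i)).1) := by
    rw [hc]
    apply le_antisymm
    · refine Finset.sup_le fun j _ => ?_
      obtain ⟨i, rfl⟩ := hJsurj j
      rw [hWcard, add_zero, ← hJw]
      exact Finset.le_sup (f := fun i => (h 1 (Z i)).1) (Finset.mem_univ i)
    · refine Finset.sup_le fun i _ => ?_
      rw [hJw]
      refine le_trans ?_ (Finset.le_sup (f := fun j => (w j).1 + (h 1 (W j)).1)
        (Finset.mem_univ (J i)))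
      exact Nat.le_add_right _ _
  rw [hXc, ← hsup]
  congr 1
  rw [Finset.sum_filter, Finset.sum_filter,
    ← Finset.sum_fiberwise_of_maps_to (s := Finset.univ) (t := Finset.univ) (g := J)
      (fun i _ => Finset.mem_univ _)]
  refine Finset.sum_congr rfl fun j _ => ?_
  rw [hWcard j, add_zero]
  have h1 : ∀ i ∈ Finset.univ.filter (fun i => J i = j),
      (if (h 1 (Z i)).1 = c then (h 1 (Z i)).2 else 0) = if (w j).1 = c then (w j).2 else 0 := by
    intro i hi
    rw [hJw i, (Finset.mem_filter.1 hi).2]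
  rw [Finset.sum_congr rfl h1, Finset.sum_const, nsmul_eq_mul]
  split_ifs
  · ring
  · ring

end additivity

/-! ### The elementary facts used -/

section facts

/-- `x + y` -/
def ad {M : Type u} [Lsqf.Structure M] (x y : M) : M :=
  Structure.funMap (L := Lsqf) (n := 2) Fn.add ![x, y]

/-- the element named by `1` -/
def un (M : Type u) [Lsqf.Structure M] : M := Structure.funMap (L := Lsqf) (n := 0) Fn.one ![]

/-- the term `x + y` -/
def tad {α : Type} (s t : Lsqf.Term α) : Lsqf.Term α :=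
  Functions.apply₂ (Fn.add : Lsqf.Functions 2) s t

/-- the term `1` -/
def ton {α : Type} : Lsqf.Term α := Constants.term (Fn.one : Lsqf.Constants)

theorem realize_tad {M : Type u} [Lsqf.Structure M] {α : Type} (s t : Lsqf.Term α) (v : α → M) :
    (tad s t).realize v = ad (s.realize v) (t.realize v) := by
  rw [tad, Term.realize_functions_apply₂]
  rfl

theorem realize_ton {M : Type u} [Lsqf.Structure M] {α : Type} (v : α → M) :
    (ton : Lsqf.Term α).realize v = un M := by
  rw [ton, Term.realize_constants, un]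
  exact congrArg (Structure.funMap (L := Lsqf) (n := 0) Fn.one) (Subsingleton.elim _ _)

theorem ad_int (x y : ℤ) : ad x y = x + y := rfl

theorem un_int : un ℤ = 1 := rfl

/-- `2 x = 2 y → x = y` -/
def s1 : Lsqf.Sentence :=
  ∀' ∀' ((tad (&0) (&0) =' tad (&1) (&1)) ⟹ ((&0) =' (&1)))

/-- `2 x ≠ 2 y + 1` -/
def s2 : Lsqf.Sentence :=
  ∀' ∀' ∼(tad (&0) (&0) =' tad (tad (&1) (&1)) ton)

/-- `2 x + 1 = 2 y + 1 → x = y` -/
def s3 : Lsqf.Sentence :=
  ∀' ∀' ((tad (tad (&0) (&0)) ton =' tad (tad (&1) (&1)) ton) ⟹ ((&0) =' (&1)))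

/-- `∀ x ∃ y, x = 2 y ∨ x = 2 y + 1` -/
def s4 : Lsqf.Sentence :=
  ∀' ∃' (((&0) =' tad (&1) (&1)) ⊔ ((&0) =' tad (tad (&1) (&1)) ton))

variable (M : Type u) [Lsqf.Structure M]

theorem real1 : M ⊨ s1 ↔ ∀ x y : M, ad x x = ad y y → x = y := by
  simp [s1, Sentence.Realize, Formula.Realize, realize_tad, Fin.snoc]

theorem real2 : M ⊨ s2 ↔ ∀ x y : M, ad x x ≠ ad (ad y y) (un M) := by
  simp [s2, Sentence.Realize, Formula.Realize, realize_tad, realize_ton, Fin.snoc]

theorem real3 : M ⊨ s3 ↔ ∀ x y : M, ad (ad x x) (un M) = ad (ad y y) (un M) → x = y := by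
  simp [s3, Sentence.Realize, Formula.Realize, realize_tad, realize_ton, Fin.snoc]

theorem real4 : M ⊨ s4 ↔ ∀ x : M, ∃ y : M, x = ad y y ∨ x = ad (ad y y) (un M) := by
  simp [s4, Sentence.Realize, Formula.Realize, realize_tad, realize_ton, Fin.snoc]

variable {M}

theorem transfer (hM : M ⊨ Tsqf) {φ : Lsqf.Sentence} (h : ℤ ⊨ φ) : M ⊨ φ :=
  hM.realize_of_mem φ h

theorem fact1 (hM : M ⊨ Tsqf) : ∀ x y : M, ad x x = ad y y → x = y :=
  (real1 M).1 (transfer hM ((real1 ℤ).2 fun x y h => by
    rw [ad_int, ad_int] at h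
    omega))

theorem fact2 (hM : M ⊨ Tsqf) : ∀ x y : M, ad x x ≠ ad (ad y y) (un M) :=
  (real2 M).1 (transfer hM ((real2 ℤ).2 fun x y h => by
    rw [ad_int, ad_int, ad_int, un_int] at h
    omega))

theorem fact3 (hM : M ⊨ Tsqf) : ∀ x y : M, ad (ad x x) (un M) = ad (ad y y) (un M) → x = y :=
  (real3 M).1 (transfer hM ((real3 ℤ).2 fun x y h => by
    rw [ad_int, ad_int, ad_int, ad_int, un_int] at h
    omega))

theorem fact4 (hM : M ⊨ Tsqf) : ∀ x : M, ∃ y : M, x = ad y y ∨ x = ad (ad y y) (un M) :=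
  (real4 M).1 (transfer hM ((real4 ℤ).2 fun x => ⟨x / 2, by
    rw [ad_int, ad_int, un_int]
    omega⟩))

end facts

/-- Values in `(ℕ × ℝ_{> 0}) ∪ {(0, 0)}` and the conditions 2 and 3 are contradictory in every
model of `T_Sqf`. -/
theorem main (M : Type u) [Nonempty M] [Lsqf.Structure M] (hM : M ⊨ Tsqf)
    (h : (n : ℕ) → Set (Fin n → M) → ℕ × ℝ) (h0 : Values Lsqf M h) (h2 : CondFin M h)
    (h3 : CondFubini Lsqf M h) : False := by
  classical
  have hinf : Infinite M := by
    by_contra hcon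
    rw [not_infinite_iff_finite] at hcon
    have h1 : Function.Surjective fun x : M => ad x x :=
      Finite.injective_iff_surjective.1 (fun x y hxy => fact1 hM x y hxy)
    obtain ⟨y⟩ := (inferInstance : Nonempty M)
    obtain ⟨x, hx⟩ := h1 (ad (ad y y) (un M))
    exact fact2 hM x y hx
  choose g hg using fact4 hM
  have hg1 : ∀ y, g (ad y y) = y := by
    intro y
    rcases hg (ad y y) with h1 | h1
    · exact (fact1 hM _ _ h1).symm
    · exact absurd h1 (fact2 hM _ _)
  have hg2 : ∀ y, g (ad (ad y y) (un M)) = y := by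
    intro y
    rcases hg (ad (ad y y) (un M)) with h1 | h1
    · exact absurd h1.symm (fact2 hM _ _)
    · exact (fact3 hM _ _ h1).symm
  let f : (Fin 1 → M) → (Fin 1 → M) := fun x _ => g (x 0)
  have hsurj : DefSurj Lsqf M (Set.univ : Set (Fin 1 → M)) (Set.univ : Set (Fin 1 → M)) f := by
    refine ⟨Set.definable_univ, Set.definable_univ, ?_, ?_⟩
    · rw [Set.image_univ, Set.range_eq_univ]
      intro y
      refine ⟨fun _ => ad (y 0) (y 0), ?_⟩
      funext j
      show g (ad (y 0) (y 0)) = y j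
      rw [hg1, Subsingleton.elim j 0]
    · refine Set.Definable.mono (A := ∅) ?_ (Set.empty_subset _)
      refine Set.empty_definable_iff.2
        ⟨(Term.equal (Term.var (Sum.inl 0)) (tad (Term.var (Sum.inr 0)) (Term.var (Sum.inr 0)))) ⊔
          (Term.equal (Term.var (Sum.inl 0))
            (tad (tad (Term.var (Sum.inr 0)) (Term.var (Sum.inr 0))) ton)), ?_⟩
      ext w
      simp only [Set.mem_univ, true_and, Set.mem_ofPred_eq]
      rw [Formula.realize_sup, Formula.realize_equal, Formula.realize_equal]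
      simp only [realize_tad, realize_ton, Term.realize_var]
      constructor
      · intro hw
        have h1 : g (w (Sum.inl 0)) = w (Sum.inr 0) := congrFun hw 0
        rw [← h1]
        exact hg _
      · intro hw
        funext j
        rw [Subsingleton.elim j 0]
        show g (w (Sum.inl 0)) = w (Sum.inr 0)
        rcases hw with hw | hw
        · rw [hw, hg1]
        · rw [hw, hg2]
  obtain ⟨r, Z, w, hne, hdis, hcov, hdef, hw, c, hc, hX⟩ :=
    h3 1 1 le_rfl le_rfl _ _ f hsurj
  -- the fibres have two elements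
  have hw2 : ∀ i, w i = (0, 2) := by
    intro i
    obtain ⟨y, hy⟩ := hne i
    rw [← hw i y hy]
    have e : {x : Fin 1 → M | x ∈ (Set.univ : Set (Fin 1 → M)) ∧ f x = y} =
        {(fun _ => ad (y 0) (y 0)), fun _ => ad (ad (y 0) (y 0)) (un M)} := by
      ext x
      simp only [Set.mem_univ, true_and, Set.mem_ofPred_eq, Set.mem_insert_iff,
        Set.mem_singleton_iff]
      constructor
      · intro hx
        have h1 : g (x 0) = y 0 := congrFun hx 0
        rcases hg (x 0) with h4 | h4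
        · left
          funext j
          rw [Subsingleton.elim j 0, ← h1]
          exact h4
        · right
          funext j
          rw [Subsingleton.elim j 0, ← h1]
          exact h4
      · rintro (rfl | rfl)
        · funext j
          rw [Subsingleton.elim j 0]
          exact hg1 _
        · funext j
          rw [Subsingleton.elim j 0]
          exact hg2 _
    have hpair : (fun _ => ad (y 0) (y 0) : Fin 1 → M) ≠ fun _ => ad (ad (y 0) (y 0)) (un M) :=
      fun hcon => fact2 hM _ _ (congrFun hcon 0)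
    rw [e, h2 1 le_rfl _ (Set.toFinite _), Set.ncard_pair hpair]
    norm_num
  have hadd := additive h2 h3 Set.univ Set.definable_univ Z hne hdis hcov hdef
  have hc' : c = Finset.univ.sup (fun i => (h 1 (Z i)).1) := by
    rw [hc]
    refine Finset.sup_congr rfl fun i _ => ?_
    rw [hw2 i]
    simp
  rw [← hc'] at hadd
  have hX' : h 1 Set.univ = (c, ∑ i ∈ Finset.univ.filter (fun i => (h 1 (Z i)).1 = c),
      2 * (h 1 (Z i)).2) := by
    rw [hX]
    congr 1
    refine Finset.sum_congr ?_ fun i _ => ?_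
    · ext i
      simp [hw2 i]
    · rw [hw2 i]
  have hzero : (h 1 Set.univ).2 = 0 := by
    have h4 : (h 1 Set.univ).2 = 2 * (h 1 Set.univ).2 := by
      conv_lhs => rw [hX']
      rw [hadd]
      simp only
      rw [Finset.mul_sum]
    linarith
  rcases h0 1 le_rfl Set.univ Set.definable_univ with h4 | h4
  · rw [hzero] at h4
    exact lt_irrefl _ h4
  -- the value `(0, 0)` is not possible
  obtain ⟨a, b, hab⟩ := exists_pair_ne M
  have hpart := additive h2 h3 (Set.univ : Set (Fin 1 → M)) Set.definable_univ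
    (r := 2) ![{x | x 0 = a}, {x | x 0 = a}ᶜ] (by
      intro i
      fin_cases i
      · exact ⟨fun _ => a, rfl⟩
      · exact ⟨fun _ => b, fun hba => hab (show b = a from hba).symm⟩) (by
      intro i j hij
      fin_cases i <;> fin_cases j
      · exact absurd rfl hij
      · exact disjoint_compl_right
      · exact disjoint_compl_left
      · exact absurd rfl hij) (by
      ext x
      simp only [Set.mem_iUnion, Set.mem_univ, iff_true]
      by_cases hx : x 0 = a
      · exact ⟨0, hx⟩
      · exact ⟨1, hx⟩) (by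
      intro i
      fin_cases i
      · exact def_singleton a
      · exact (def_singleton a).compl)
  have hsing : h 1 {x : Fin 1 → M | x 0 = a} = (0, 1) := by
    have e : {x : Fin 1 → M | x 0 = a} = {fun _ => a} := by
      ext x
      simp only [Set.mem_ofPred_eq, Set.mem_singleton_iff]
      constructor
      · intro hx
        funext j
        rw [Subsingleton.elim j 0, hx]
      · rintro rfl
        rfl
    rw [e, h2 1 le_rfl _ (Set.toFinite _), Set.ncard_singleton]
    norm_num
  rw [h4] at hpart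
  have hle : ∀ i : Fin 2, (h 1 ((![{x | x 0 = a}, {x | x 0 = a}ᶜ] : Fin 2 → Set (Fin 1 → M)) i)).1
      = 0 := by
    intro i
    have h5 := congrArg Prod.fst hpart
    simp only at h5
    have h6 := Finset.le_sup (f := fun i : Fin 2 =>
      (h 1 ((![{x | x 0 = a}, {x | x 0 = a}ᶜ] : Fin 2 → Set (Fin 1 → M)) i)).1)
      (Finset.mem_univ i)
    rw [← h5] at h6
    exact Nat.le_zero.1 h6
  have h7 := congrArg Prod.snd hpart
  simp only at h7
  rw [Finset.filter_true_of_mem, Fin.sum_univ_two] at h7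
  · have h8 : (h 1 ((![{x | x 0 = a}, {x | x 0 = a}ᶜ] : Fin 2 → Set (Fin 1 → M)) 0)).2 = 1 := by
      show (h 1 {x : Fin 1 → M | x 0 = a}).2 = 1
      rw [hsing]
    have h9 : 0 ≤ (h 1 ((![{x | x 0 = a}, {x | x 0 = a}ᶜ] : Fin 2 → Set (Fin 1 → M)) 1)).2 := by
      rcases h0 1 le_rfl ((![{x | x 0 = a}, {x | x 0 = a}ᶜ] : Fin 2 → Set (Fin 1 → M)) 1)
        (def_singleton a).compl with h10 | h10
      · exact h10.le
      · rw [h10]
    rw [h8] at h7
    linarith
  · intro i _
    rw [hle i]
    have h5 := congrArg Prod.fst hpart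
    exact h5

/-- **Full (negative) answer to Q1.** `T_Sqf` is not MS-measurable: no model of `T_Sqf` is
MS-measurable. In fact already the conditions 2 and 3 cannot be satisfied in any model. -/
theorem result : ¬ MSMeasurableTheory.{u} Lsqf Tsqf ∧
    ∀ (M : Type u) [Nonempty M] [Lsqf.Structure M], M ⊨ Tsqf →
      ¬ ∃ h : (n : ℕ) → Set (Fin n → M) → ℕ × ℝ,
        Values Lsqf M h ∧ CondFin M h ∧ CondFubini Lsqf M h := by
  have h1 : ∀ (M : Type u) [Nonempty M] [Lsqf.Structure M], M ⊨ Tsqf →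
      ¬ ∃ h : (n : ℕ) → Set (Fin n → M) → ℕ × ℝ,
        Values Lsqf M h ∧ CondFin M h ∧ CondFubini Lsqf M h := by
    rintro M _ _ hM ⟨h, h0, h2, h3⟩
    exact main M hM h h0 h2 h3
  refine ⟨?_, h1⟩
  rintro ⟨M, _, _, hM, h, h0, -, h2, h3⟩
  exact h1 M hM ⟨h, h0, h2, h3⟩

end Pool.Agent.Results.MP_c6a6a6_lc.NotMeasurable
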